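import Pool.Agent.NH66.MAFlow.NoSol

/-!
# The local complex Monge-Ampère flow cannot start from data with a positive Lelong number

The question (for every bounded strictly pseudoconvex domain, every plurisubharmonic `u₀` and all
compatible smooth boundary data there is a solution of `∂u/∂t = log det (u_{i \bar j})`, smooth for
`t > 0`, with `u(·, t) → u₀` pointwise) has a negative answer in every dimension `n ≥ 1`: if
`u₀(z) ≤ c log |z - z₀|` near some `z₀ ∈ Ω`, with `c > 0`, then there is no solution, for any `T`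
and any boundary data. An example is `u₀ = c log |z|` on the unit ball, with boundary data `0`.

Proof. A solution satisfies `∂u/∂t ≤ n log (Δu / 4n)` with `Δu > 0` (arithmetic-geometric mean
inequality for the eigenvalues of the complex Hessian). By Hartogs' lemma, for every `η > 0` there
is a time `t₀ < η` with `u(z, t₀) ≤ (c/2) log (|z - z₀|² + η²) + K + η` on a small ball. The function
`½ (c - 2 n (t - t₀)) log (|z - z₀|² + η²) + A (t - t₀) + K + η` is a strict supersolution, hence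
`u(z₀, t) ≤ (c - 2 n (t - t₀)) log η + C` for `2 n t < c`. Letting `η → 0` gives `u(z₀, t) = -∞`,
which is absurd as `u` is smooth for `t > 0`.
-/

open Set Filter Topology Metric Pool.Agent.NH66.MAFlow

namespace Pool.Agent.Results.MP_8f0dee_an.PositiveLelong

/-- **No solution for a positive Lelong number.** In every dimension `n ≥ 1`:
for all data `Ω, T, u₀, φ` of the problem such that `u₀ ≤ c log |z - z₀|` near some point `z₀ ∈ Ω`
for some `c > 0`, the flow has no solution with initial datum `u₀` and boundary data `φ`; and such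
data exist: for all `T > 0` and `c > 0` the unit ball, `u₀ = c log |z|` and `φ = 0`. -/
theorem result (n : ℕ) (hn : 1 ≤ n) :
    (∀ (Ω : Set (Cn n)) (T : ℝ) (u₀ : Cn n → EReal) (φ : Cn n → ℝ → ℝ), IsData Ω T u₀ φ →
      (∃ z₀ ∈ Ω, ∃ c : ℝ, 0 < c ∧
        ∀ᶠ z in 𝓝[≠] z₀, u₀ z ≤ ((c * Real.log ‖z - z₀‖ : ℝ) : EReal)) →
      ¬ ∃ u, IsSolution Ω T u₀ φ u) ∧
    (∀ T c : ℝ, 0 < T → 0 < c →
      IsData (ball (0 : Cn n) 1) T (logPole n c) (fun _ _ => 0) ∧
      ¬ ∃ u, IsSolution (ball (0 : Cn n) 1) T (logPole n c) (fun _ _ => 0) u) := by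
  have h1 : ∀ (Ω : Set (Cn n)) (T : ℝ) (u₀ : Cn n → EReal) (φ : Cn n → ℝ → ℝ), IsData Ω T u₀ φ →
      (∃ z₀ ∈ Ω, ∃ c : ℝ, 0 < c ∧
        ∀ᶠ z in 𝓝[≠] z₀, u₀ z ≤ ((c * Real.log ‖z - z₀‖ : ℝ) : EReal)) →
      ¬ ∃ u, IsSolution Ω T u₀ φ u := by
    rintro Ω T u₀ φ hD ⟨z₀, hz₀, c, hc, hL⟩
    exact no_solution hn hD hz₀ hc hL
  refine ⟨h1, fun T c hT hc => ⟨logPole_data hT hc, ?_⟩⟩
  refine h1 _ T _ _ (logPole_data hT hc) ⟨0, mem_ball_self one_pos, c, hc, ?_⟩
  filter_upwards [self_mem_nhdsWithin] with z hz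
  rw [logPole_of_ne hz, sub_zero]

end Pool.Agent.Results.MP_8f0dee_an.PositiveLelong
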